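import Pool.Agent.H60.GQ.MainCoreg

/-!
# Generalized quadrangles of order (4, 11) and (4, 12) have no coregular point

`LPerp I l m` = `{l, m}^⊥`, the lines concurrent with `l` and with `m`; `LPerpPerp I l m` =
`{l, m}^⊥⊥`. A pair of non-concurrent lines of a quadrangle of order `(s, t)` is regular if
`|{l, m}^⊥⊥| = s + 1`, a line `l` is regular if all pairs `(l, m)` with `m` not concurrent with `l` are
regular, and a point is coregular if all lines through it are regular.
-/

namespace Pool.Agent.Results.MP_a3aa3c_co.NoCoregularPoint

open H60GQ

/-- Every point is on a line `l` which is not regular: there is a line `m` not concurrent with `l` such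
that `{l, m}^⊥⊥` does not have `s + 1 = 5` elements. -/
theorem result {P : Type*} {L : Type*} [Finite P] [Finite L] (I : P → L → Prop) (t : ℕ)
    (ht : t = 11 ∨ t = 12) (h : IsGQ I 4 t) (p : P) :
    ∃ l, I p l ∧ ∃ m, ¬ Meet I l m ∧ (LPerpPerp I l m).ncard ≠ 5 := by
  have hp := main_coreg h ht p
  unfold Coregular RegularLine RegularPair at hp
  push Not at hp
  exact hp

end Pool.Agent.Results.MP_a3aa3c_co.NoCoregularPoint
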