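import Pool.Agent.H60.GQ.MainSub

/-!
# Generalized quadrangles of order (4, 11) and (4, 12) have no proper thick subquadrangle

`H60GQ.IsGQ I s t` (file `Pool/Agent/H60/GQ/Basic.lean`) are the axioms 1-3 of the problem file for
an incidence relation `I`. A subquadrangle of order `(s', t')` is a nonempty set `P'` of points and a
set `L'` of lines which satisfy the axioms with the induced incidence. The structure of the proof is
described in the headers of the files `Pool/Agent/H60/GQ/*.lean`.
-/

namespace Pool.Agent.Results.MP_a3aa3c_co.NoThickSubquadrangle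

open H60GQ

theorem result {P : Type*} {L : Type*} [Finite P] [Finite L] (I : P → L → Prop) (t : ℕ)
    (ht : t = 11 ∨ t = 12) (h : IsGQ I 4 t) (P' : Set P) (L' : Set L) (hne : P'.Nonempty)
    (s' t' : ℕ) (hs' : 2 ≤ s') (ht' : 2 ≤ t')
    (h' : IsGQ (fun (p : P') (l : L') => I p.1 l.1) s' t') :
    P' = Set.univ ∧ L' = Set.univ :=
  main_sub h ht ⟨hne, h'⟩ hs' ht'

end Pool.Agent.Results.MP_a3aa3c_co.NoThickSubquadrangle
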