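import Pool.Agent.H60.GQ.MainOvoid

/-!
# A generalized quadrangle of order (4, 11) with an ovoid is partitioned into five ovoids

An ovoid is a set of points which meets every line in exactly one point. The five ovoids form a linked
system of symmetric designs with parameters (45, 12, 3): blocks of `f j` are the sets of points of `f j`
collinear with a point of `f i`.
-/

namespace Pool.Agent.Results.MP_a3aa3c_co.OvoidPartition

open H60GQ

/-- If a generalized quadrangle of order `(4, 11)` has an ovoid `O` then its point set is partitioned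
into five ovoids `f 0 = O, f 1, ..., f 4` of 45 points; a point of `f i` is collinear with exactly `12`
points of `f j` (`j ≠ i`), two different points of `f i` have exactly `3` common neighbours in `f j`
(`j ≠ i`), two points in `f i` and `f k` (`i ≠ k`) have exactly `1` or `4` common neighbours in `f j`
(`j ≠ i, k`) according as they are collinear or not. -/
theorem result {P : Type*} {L : Type*} [Finite P] [Finite L] [Nonempty P] (I : P → L → Prop)
    (h : IsGQ I 4 11) (O : Set P) (hO : ∀ l, ∃! p, p ∈ O ∧ I p l) :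
    ∃ f : Fin 5 → Set P, f 0 = O ∧ (∀ i l, ∃! p, p ∈ f i ∧ I p l) ∧
      (∀ x, ∃! i, x ∈ f i) ∧
      (∀ i, (f i).ncard = 45) ∧
      (∀ i j x, j ≠ i → x ∈ f i → {p | p ∈ f j ∧ Col I x p}.ncard = 12) ∧
      (∀ i j x y, j ≠ i → x ∈ f i → y ∈ f i → x ≠ y →
        {p | p ∈ f j ∧ Col I x p ∧ Col I y p}.ncard = 3) ∧
      (∀ i j k x y, i ≠ k → j ≠ i → j ≠ k → x ∈ f i → y ∈ f k → ¬ Col I x y →
        {p | p ∈ f j ∧ Col I x p ∧ Col I y p}.ncard = 4) ∧
      (∀ i j k x y, i ≠ k → j ≠ i → j ≠ k → x ∈ f i → y ∈ f k → Col I x y →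
        {p | p ∈ f j ∧ Col I x p ∧ Col I y p}.ncard = 1) := by
  obtain ⟨f, h0, hf, hp, h1, h2, h3⟩ := main_ovoid h hO
  refine ⟨f, h0, hf, hp, fun i => ov_card h (hf i), fun i j x hij hx => ?_, h1, h2, h3⟩
  refine ov_nbr h (hf j) (fun hx' => hij ?_)
  exact (hp x).unique hx' hx

end Pool.Agent.Results.MP_a3aa3c_co.OvoidPartition
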