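import Pool.Agent.H60.GA.MainPrime

/-!
# Automorphisms of prime order at least 5 of the quadrangles of order (4, 11) and (4, 12)

`H60GQ.IsGQ I s t` (file `Pool/Agent/H60/GQ/Basic.lean`) are the axioms 1-3 of the problem file for
an incidence relation `I`, `Col I x y` says that some line contains `x` and `y`. An automorphism is a pair
of permutations `g` of the points and `k` of the lines which preserves the incidence. The structure of the
proof is described in the headers of the files `Pool/Agent/H60/GA/*.lean`.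
-/

namespace Pool.Agent.Results.MP_a3aa3c_co.PrimeOrderAutomorphisms

open H60GQ

theorem result {P : Type*} {L : Type*} [Finite P] [Finite L] (I : P → L → Prop) (t : ℕ)
    (ht : t = 11 ∨ t = 12) (h : IsGQ I 4 t) (g : Equiv.Perm P) (k : Equiv.Perm L)
    (ha : ∀ p l, I (g p) (k l) ↔ I p l) (q : ℕ) (hq : q.Prime) (hq5 : 5 ≤ q) (hgq : g ^ q = 1)
    (hg : g ≠ 1) :
    (t = 12 ∧ q = 5 ∧ (∀ x, g x ≠ x) ∧ {x | Col I x (g x)}.ncard = 65 ∧
      ({l | k l = l}.ncard = 2 ∨ {l | k l = l}.ncard = 7 ∨ {l | k l = l}.ncard = 12)) ∨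
    (t = 11 ∧ q = 11 ∧ {l | k l = l}.ncard = 1 ∧ {x | g x = x}.ncard = 5) ∨
    (t = 11 ∧ q = 5 ∧ ((∀ x, g x ≠ x) ∨ ((∃ x, g x = x) ∧
      IsGQ (fun (p : {x | g x = x}) (l : {l | k l = l}) => I p.1 l.1) 4 1))) := by
  rcases ht with rfl | rfl
  · rcases prime11 h ha hq hq5 hgq hg with ⟨h1, h2, h3⟩ | ⟨h1, h2⟩
    · exact Or.inr (Or.inl ⟨rfl, h1, h2, h3⟩)
    · refine Or.inr (Or.inr ⟨rfl, h1, ?_⟩)
      rcases h2 with h2 | h2
      · exact Or.inl h2
      · exact Or.inr ⟨h2.1, h2.2⟩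
  · obtain ⟨h1, h2, h3, h4⟩ := prime12 h ha hq hq5 hgq hg
    exact Or.inl ⟨rfl, h1, h2, h4, h3⟩

end Pool.Agent.Results.MP_a3aa3c_co.PrimeOrderAutomorphisms
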